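import Pool.Agent.H50GS.Lin

/-!
# Deficiency at least two on a set of letters, modulo harmless relators
-/

set_option autoImplicit false

namespace Pool.H50.GS

open Equiv Pool.H96.GS Module

section pos

variable (M : ℕ)

/-- the class of an integer -/
def pos : Multiplicative ℤ →* Multiplicative (ZMod M) :=
  AddMonoidHom.toMultiplicative (Int.castAddHom (ZMod M))

variable {M}

theorem pos_inj {a b : ℤ} (h : pos M (Multiplicative.ofAdd a) = pos M (Multiplicative.ofAdd b))
    (hab : |a - b| < M) : a = b := by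
  have h1 : ((a : ℤ) : ZMod M) = ((b : ℤ) : ZMod M) := h
  rw [ZMod.intCast_eq_intCast_iff_dvd_sub] at h1
  have h2 : (b - a : ℤ) = 0 := Int.eq_zero_of_abs_lt_dvd h1 (by rw [abs_sub_comm]; exact hab)
  omega

end pos

theorem bound_suffix {X : Type*} [DecidableEq X] (θ : FreeGroup X →* Multiplicative ℤ)
    {R : Set (FreeGroup X)} (hR : R.Finite) :
    ∃ L : ℕ, ∀ r ∈ R, ∀ u, u <:+ r.toWord →
      |Multiplicative.toAdd (θ (FreeGroup.mk u))| ≤ L := by
  let S : Set ℤ := ⋃ r ∈ R, (fun u => |Multiplicative.toAdd (θ (FreeGroup.mk u))|) ''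
    {u | u ∈ r.toWord.tails}
  have hS : S.Finite := by
    refine hR.biUnion fun r _ => ?_
    refine Set.Finite.image _ ?_
    exact List.finite_toSet _
  obtain ⟨L, hL⟩ := hS.bddAbove
  refine ⟨L.toNat, fun r hr u hu => ?_⟩
  have h1 : |Multiplicative.toAdd (θ (FreeGroup.mk u))| ≤ L := by
    refine hL (Set.mem_biUnion hr ⟨u, ?_, rfl⟩)
    exact (List.mem_tails _ _).mpr hu
  have h2 := Int.self_le_toNat L
  omega

/-- remove the letters outside `T` -/
def ret {X : Type*} [DecidableEq X] (T : Finset X) : FreeGroup X →* FreeGroup X :=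
  FreeGroup.lift fun x => if x ∈ T then FreeGroup.of x else 1

theorem ret_of {X : Type*} [DecidableEq X] (T : Finset X) (x : X) :
    ret T (FreeGroup.of x) = if x ∈ T then FreeGroup.of x else 1 := by
  simp [ret]

/-- **Baumslag and Pride, with removed letters and modulo `[F', F'] (F')^l`.** -/
theorem large_of_subset {X : Type*} [DecidableEq X] {l : ℕ} (hl : l.Prime)
    (R : Set (FreeGroup X)) (hRf : R.Finite) (T : Finset X) (Rb : Finset (FreeGroup X))
    (hcard : Rb.card + 2 ≤ T.card) (hR : ∀ r ∈ R, r ∈ Rb ∨ ret T r ∈ Zl X l) :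
    Large (FreeGroup X ⧸ Subgroup.normalClosure R) := by
  classical
  have : Fact l.Prime := ⟨hl⟩
  obtain ⟨θ, hθT, hθR, y, hyT, hy0⟩ := exists_theta T Rb (by omega)
  obtain ⟨L, hL⟩ := bound_suffix θ (hRf.union Rb.finite_toSet)
  set e : ℤ := Multiplicative.toAdd (θ (FreeGroup.of y)) with he
  set m := Rb.card with hm
  set W : ℕ := 2 * m * L with hW
  set D : ℕ := W + 2 * L + 1 with hD
  set M : ℕ := e.natAbs * (8 * D) + 1 with hM
  have hepos : 1 ≤ e.natAbs := Int.natAbs_pos.mpr hy0
  have hMD : 8 * D + 1 ≤ M := by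
    have : 1 * (8 * D) ≤ e.natAbs * (8 * D) := Nat.mul_le_mul_right _ hepos
    omega
  have : NeZero M := ⟨by omega⟩
  let q : FreeGroup X →* Multiplicative (ZMod M) := (pos M).comp θ
  have hq : ∀ w, q w = pos M (θ w) := fun w => rfl
  -- the window and the starts
  let Win : Finset (Multiplicative (ZMod M)) :=
    (Finset.range (W + 1)).image fun a : ℕ => pos M (Multiplicative.ofAdd (a : ℤ))
  let B : Finset (Multiplicative (ZMod M)) :=
    (Finset.Icc (-(L : ℤ)) (W + L)).image fun a : ℤ => pos M (Multiplicative.ofAdd a)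
  have hWin : Win.card = W + 1 := by
    rw [Finset.card_image_of_injOn, Finset.card_range]
    intro a ha b hb hab
    simp only [Finset.coe_range, Set.mem_Iio] at ha hb
    have h1 := pos_inj hab (by rw [abs_lt]; constructor <;> omega)
    exact_mod_cast h1
  have hB : B.card ≤ W + 1 + 2 * L := by
    refine Finset.card_image_le.trans ?_
    rw [Int.card_Icc]
    omega
  have hcnt : Rb.card * B.card < (T.erase y).card * Win.card := by
    rw [Finset.card_erase_of_mem hyT, hWin, ← hm]
    have h1 : m + 1 ≤ T.card - 1 := by omega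
    have h2 : (m + 1) * (W + 1) ≤ (T.card - 1) * (W + 1) := Nat.mul_le_mul_right _ h1
    have h3 : m * B.card ≤ m * (W + 1 + 2 * L) := Nat.mul_le_mul_left _ hB
    have h4 : m * (W + 1 + 2 * L) < (m + 1) * (W + 1) := by
      have h5 : m * (W + 1 + 2 * L) = m * (W + 1) + W := by rw [hW]; ring
      rw [h5]
      nlinarith
    omega
  obtain ⟨c, hc0, ⟨x0, g0, hx0⟩, hcR⟩ :=
    exists_weight (l := l) q (T.erase y) Win B Rb hcnt
  have hWB : ∀ g, g ∈ Win → g ∈ B := by
    intro g hg
    obtain ⟨a, ha, rfl⟩ := Finset.mem_image.mp hg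
    rw [Finset.mem_range] at ha
    exact Finset.mem_image.mpr ⟨a, by rw [Finset.mem_Icc]; constructor <;> omega, rfl⟩
  -- a path that meets a translate of the window starts in the translate of `B`
  have hmeet : ∀ r ∈ R ∪ (Rb : Set (FreeGroup X)), ∀ (d g h : Multiplicative (ZMod M)),
      OnPath q r.toWord g h → d⁻¹ * h ∈ Win → d⁻¹ * g ∈ B := by
    rintro r hr d g h ⟨u, hu, rfl⟩ hw
    obtain ⟨a, ha, hae⟩ := Finset.mem_image.mp hw
    rw [Finset.mem_range] at ha
    have hLu := hL r hr u hu
    refine Finset.mem_image.mpr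
      ⟨(a : ℤ) - Multiplicative.toAdd (θ (FreeGroup.mk u)), ?_, ?_⟩
    · rw [abs_le] at hLu
      rw [Finset.mem_Icc]
      constructor <;> omega
    · have h1 : Multiplicative.ofAdd ((a : ℤ) - Multiplicative.toAdd (θ (FreeGroup.mk u))) =
          Multiplicative.ofAdd (a : ℤ) * (θ (FreeGroup.mk u))⁻¹ := by
        rw [sub_eq_add_neg, ofAdd_add, ofAdd_neg, ofAdd_toAdd]
      rw [h1, map_mul, hae, map_inv, ← hq]
      rw [mul_comm (q (FreeGroup.mk u)) g, ← mul_assoc, mul_inv_cancel_right]
  -- the translations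
  let d : Fin 3 → Multiplicative (ZMod M) := fun i =>
    pos M (Multiplicative.ofAdd ((i.val : ℤ) * D))
  have hdis : ∀ i i' g, (d i)⁻¹ * g ∈ B → (d i')⁻¹ * g ∈ B → i = i' := by
    intro i i' g h h'
    obtain ⟨a, ha, hae⟩ := Finset.mem_image.mp h
    obtain ⟨b, hb, hbe⟩ := Finset.mem_image.mp h'
    rw [Finset.mem_Icc] at ha hb
    have h1 : d i * pos M (Multiplicative.ofAdd a) = d i' * pos M (Multiplicative.ofAdd b) := by
      rw [hae, hbe, mul_inv_cancel_left, mul_inv_cancel_left]
    have h2 : pos M (Multiplicative.ofAdd ((i.val : ℤ) * D + a)) =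
        pos M (Multiplicative.ofAdd ((i'.val : ℤ) * D + b)) := by
      rw [ofAdd_add ((i.val : ℤ) * D) a, ofAdd_add ((i'.val : ℤ) * D) b,
        MonoidHom.map_mul (pos M), MonoidHom.map_mul (pos M)]
      exact h1
    have hi := i.isLt
    have hi' := i'.isLt
    have hb1 : (i.val : ℤ) * D ≤ 2 * D := by nlinarith
    have hb2 : (i'.val : ℤ) * D ≤ 2 * D := by nlinarith
    have hb3 : 0 ≤ (i.val : ℤ) * D := by positivity
    have hb4 : 0 ≤ (i'.val : ℤ) * D := by positivity
    have hD' : (D : ℤ) = W + 2 * L + 1 := by rw [hD]; push_cast; ring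
    have hM' : (8 * D + 1 : ℤ) ≤ M := by exact_mod_cast hMD
    have h3 := pos_inj h2 (by rw [abs_lt]; constructor <;> linarith)
    have h4 : ((i.val : ℤ) - i'.val) * D = b - a := by linarith
    have h5 : |((i.val : ℤ) - i'.val)| * D < D := by
      have h6 : |((i.val : ℤ) - i'.val)| * D = |b - a| := by
        rw [← h4, abs_mul, Nat.abs_cast]
      rw [h6, abs_lt]
      constructor <;> linarith
    have hDpos : (0 : ℤ) < D := by rw [hD']; positivity
    have h7 : |((i.val : ℤ) - i'.val)| < 1 := by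
      by_contra hcon
      push Not at hcon
      nlinarith
    rw [Int.abs_lt_one_iff] at h7
    exact Fin.ext (by omega)
  have hcW : ∀ x g, c x g ≠ 0 → g ∈ Win := by
    intro x g h
    by_contra hcon
    exact h (hc0 x g fun hh => hcon hh.2)
  -- relators have vanishing totals
  have hRb : ∀ r ∈ Rb, r ∈ Zt q c := by
    intro r hr
    refine ⟨by rw [hq, hθR r hr, map_one], fun g => ?_⟩
    by_cases hg : g ∈ B
    · exact hcR r hr g hg
    · have h1 := tot_eq_zero (q := q) (c := c) g r.toWord (by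
        intro h hon x
        by_contra hcon
        have h2 := hmeet r (Or.inr hr) 1 g h hon (by rw [inv_one, one_mul]; exact hcW x h hcon)
        rw [inv_one, one_mul] at h2
        exact hg h2)
      rwa [FreeGroup.mk_toWord] at h1
  have hRt : ∀ r ∈ R, r ∈ Zt q c := by
    intro r hr
    rcases hR r hr with h | h
    · exact hRb r h
    · have h1 := tot_eq_of_hom (q := q) (c := c) (f := ret T) (by
        intro x
        rw [ret_of]
        by_cases hx : x ∈ T
        · left; rw [if_pos hx]
        · right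
          refine ⟨by rw [if_neg hx], by rw [hq, hθT x hx, map_one], fun g => ?_⟩
          exact hc0 x g fun hh => hx (Finset.mem_of_mem_erase hh.1)) r
      have h2 : ret T r ∈ Zt q c := Zl_le_Zt h
      exact ⟨h1.1 ▸ h2.1, fun g => (h1.2 g) ▸ (h2.2 g)⟩
  refine core50 (q := q) y ?_ c ?_ d x0 g0 hx0 ?_ hRt ?_
  · -- `y` generates
    intro g
    have hu : ∃ k : ℤ, (e : ZMod M) * (k : ZMod M) = 1 := by
      have hz : ((e.natAbs * (8 * D) + 1 : ℕ) : ZMod M) = 0 := by
        rw [← hM]; exact ZMod.natCast_self M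
      rcases Int.natAbs_eq e with h | h
      · refine ⟨-(8 * D : ℕ), ?_⟩
        have h1 : ((e : ℤ) : ZMod M) = ((e.natAbs : ℕ) : ZMod M) := by
          conv_lhs => rw [h]
          simp
        rw [h1]
        push_cast at hz ⊢
        linear_combination (-1 : ZMod M) * hz
      · refine ⟨(8 * D : ℕ), ?_⟩
        have h1 : ((e : ℤ) : ZMod M) = -((e.natAbs : ℕ) : ZMod M) := by
          conv_lhs => rw [h]
          simp
        rw [h1]
        push_cast at hz ⊢
        linear_combination (-1 : ZMod M) * hz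
    obtain ⟨k, hk⟩ := hu
    obtain ⟨z, hz⟩ := ZMod.intCast_surjective (Multiplicative.toAdd g)
    refine ⟨k * z, ?_⟩
    apply Multiplicative.toAdd.injective
    rw [toAdd_zpow]
    have h2 : Multiplicative.toAdd (q (FreeGroup.of y)) = (e : ZMod M) := rfl
    rw [h2, zsmul_eq_mul, ← hz]
    push_cast
    linear_combination (z : ZMod M) * hk
  · intro g
    exact hc0 y g fun hh => Finset.notMem_erase y T hh.1
  · intro i i' hne x g h x'
    by_contra hcon
    exact hne (hdis i i' g (hWB _ (hcW _ _ h)) (hWB _ (hcW _ _ hcon)))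
  · intro r hr g
    by_cases hex : ∃ i, (d i)⁻¹ * g ∈ B
    · obtain ⟨i0, hi0⟩ := hex
      refine ⟨i0, fun i hne h hon x => ?_⟩
      by_contra hcon
      exact hne (hdis i i0 g (hmeet r (Or.inl hr) _ g h hon (hcW _ _ hcon)) hi0)
    · refine ⟨0, fun i _ h hon x => ?_⟩
      by_contra hcon
      exact hex ⟨i, hmeet r (Or.inl hr) _ g h hon (hcW _ _ hcon)⟩

end Pool.H50.GS
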