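import Pool.Agent.Helper96.GS.Act

/-!
# Totals of weights along the path of a word
-/

set_option autoImplicit false

namespace Pool.H50.GS

open Equiv Pool.H96.GS
open scoped commutatorElement

section tot

variable {X P A : Type*} [Group P] [AddCommGroup A] (q : FreeGroup X →* P) (c : X → P → A)

/-- `tot c w g`: the total weight of the path of the word `w` that starts at the vertex `g`; the
edge from `h` labelled by the letter `x` has the weight `c x h`. -/
def tot (w : FreeGroup X) (g : P) : A :=
  (act q (fun x h => Equiv.addRight (c x h)) w (g, 0)).2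

variable {q c}

theorem tot_shift (w : FreeGroup X) (g : P) (v : A) :
    (act q (fun x h => Equiv.addRight (c x h)) w (g, v)).2 = v + tot q c w g := by
  have := act_snd_ind (q := q) (T := fun x h => Equiv.addRight (c x h))
    (fun φ => ∀ v, φ v = v + φ 0) (by simp) ?_ ?_ ?_ w g v
  · exact this
  · intro x h v
    simp
  · intro x h v
    simp
  · intro a b ha hb v
    simp only [Function.comp_apply]
    rw [ha (b v), ha (b 0), hb v, add_assoc]

theorem tot_mul (w v : FreeGroup X) (g : P) :
    tot q c (w * v) g = tot q c v g + tot q c w (q v * g) := by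
  unfold tot
  rw [act_mul_snd, tot_shift]
  rfl

theorem tot_one (g : P) : tot q c 1 g = 0 := by simp [tot]

theorem tot_of (x : X) (g : P) : tot q c (FreeGroup.of x) g = c x g := by
  unfold tot
  rw [act_of]
  simp

theorem tot_inv (w : FreeGroup X) (g : P) :
    tot q c w⁻¹ g = - tot q c w (q w⁻¹ * g) := by
  have h := tot_mul (q := q) (c := c) w w⁻¹ g
  rw [mul_inv_cancel, tot_one] at h
  exact eq_neg_of_add_eq_zero_left h.symm

theorem tot_map {B : Type*} [AddCommGroup B] (f : A →+ B) (w : FreeGroup X) (g : P) :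
    tot q (fun x h => f (c x h)) w g = f (tot q c w g) := by
  induction w using FreeGroup.induction_on generalizing g with
  | C1 => rw [tot_one, tot_one, map_zero]
  | of x => rw [tot_of, tot_of]
  | inv_of x _ => rw [tot_inv, tot_inv, tot_of, tot_of, map_neg]
  | mul x y hx hy => rw [tot_mul, tot_mul, map_add, hx, hy]

theorem tot_mul_ker {a b : FreeGroup X} (hb : q b = 1) (g : P) :
    tot q c (a * b) g = tot q c a g + tot q c b g := by
  rw [tot_mul, hb, one_mul, add_comm]

theorem tot_inv_ker {a : FreeGroup X} (ha : q a = 1) (g : P) :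
    tot q c a⁻¹ g = - tot q c a g := by
  rw [tot_inv, map_inv, ha, inv_one, one_mul]

theorem tot_pow_ker {a : FreeGroup X} (ha : q a = 1) (g : P) (n : ℕ) :
    tot q c (a ^ n) g = n • tot q c a g := by
  induction n with
  | zero => simp [tot_one]
  | succ n ih => rw [pow_succ, tot_mul_ker ha, ih, succ_nsmul]

variable (q c) in
/-- words trivial in `P` whose totals vanish. -/
def Zt : Subgroup (FreeGroup X) where
  carrier := {r | q r = 1 ∧ ∀ g, tot q c r g = 0}
  one_mem' := ⟨map_one q, fun g => tot_one g⟩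
  mul_mem' := by
    rintro a b ⟨ha, ha'⟩ ⟨hb, hb'⟩
    refine ⟨by rw [map_mul, ha, hb, one_mul], fun g => ?_⟩
    rw [tot_mul, hb', ha', add_zero]
  inv_mem' := by
    rintro a ⟨ha, ha'⟩
    refine ⟨by rw [map_inv, ha, inv_one], fun g => ?_⟩
    rw [tot_inv, ha', neg_zero]

theorem mem_Zt {r : FreeGroup X} : r ∈ Zt q c ↔ q r = 1 ∧ ∀ g, tot q c r g = 0 := Iff.rfl

/-- the product of `[F', F']` and of the subgroup generated by the `l`-th powers of the elements
of `F'`, where `F'` is the commutator subgroup of the free group -/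
def Zl (X : Type*) (l : ℕ) : Subgroup (FreeGroup X) :=
  ⁅commutator (FreeGroup X), commutator (FreeGroup X)⁆ ⊔
    Subgroup.closure {x | ∃ n ∈ commutator (FreeGroup X), x = n ^ l}

theorem Zl_map_le {X Y : Type*} (l : ℕ) (f : FreeGroup X →* FreeGroup Y) {w : FreeGroup X}
    (hw : w ∈ Zl X l) : f w ∈ Zl Y l := by
  have hc : ∀ a ∈ commutator (FreeGroup X), f a ∈ commutator (FreeGroup Y) := by
    intro a ha
    have h1 : (commutator (FreeGroup X)).map f ≤ commutator (FreeGroup Y) := by
      rw [commutator_def, commutator_def, Subgroup.map_commutator]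
      exact Subgroup.commutator_mono le_top le_top
    exact h1 ⟨a, ha, rfl⟩
  have hle : Zl X l ≤ (Zl Y l).comap f := by
    refine sup_le ?_ ?_
    · rw [Subgroup.commutator_le]
      intro a ha b hb
      show f ⁅a, b⁆ ∈ Zl Y l
      rw [map_commutatorElement]
      exact Subgroup.mem_sup_left (Subgroup.commutator_mem_commutator (hc a ha) (hc b hb))
    · rw [Subgroup.closure_le]
      rintro _ ⟨n, hn, rfl⟩
      show f (n ^ l) ∈ Zl Y l
      rw [map_pow]
      exact Subgroup.mem_sup_right (Subgroup.subset_closure ⟨f n, hc n hn, rfl⟩)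
  exact hle hw

end tot

section comm

variable {X P : Type*} [CommGroup P] {l : ℕ} {q : FreeGroup X →* P} {c : X → P → ZMod l}

theorem Zl_le_Zt : Zl X l ≤ Zt q c := by
  have hq : ∀ a ∈ commutator (FreeGroup X), q a = 1 := by
    intro a ha
    have h1 : commutator (FreeGroup X) ≤ q.ker := Abelianization.commutator_subset_ker q
    exact h1 ha
  refine sup_le ?_ ?_
  · rw [Subgroup.commutator_le]
    intro a ha b hb
    have ha1 := hq a ha
    have hb1 := hq b hb
    have ha' : q a⁻¹ = 1 := by simp [ha1]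
    have hb' : q b⁻¹ = 1 := by simp [hb1]
    refine ⟨by simp [commutatorElement_def, ha1, hb1], fun g => ?_⟩
    rw [commutatorElement_def, tot_mul_ker hb', tot_mul_ker ha', tot_mul_ker hb1, tot_inv_ker ha1,
      tot_inv_ker hb1]
    abel
  · rw [Subgroup.closure_le]
    rintro _ ⟨n, hn, rfl⟩
    have h1 := hq n hn
    refine ⟨by simp [h1], fun g => ?_⟩
    rw [tot_pow_ker h1]
    simp

end comm

section path

variable {X P Ω : Type*} [Group P] {l : ℕ} (q : FreeGroup X →* P)
  (ρ : Fin 3 → (Multiplicative (ZMod l) →* Perm Ω)) (c : Fin 3 → X → P → ZMod l)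

/-- labels: the edge `(x, g)` acts by the product of the three images of its weights. -/
def lab (x : X) (g : P) : Perm Ω :=
  ρ 0 (Multiplicative.ofAdd (c 0 x g)) * ρ 1 (Multiplicative.ofAdd (c 1 x g)) *
    ρ 2 (Multiplicative.ofAdd (c 2 x g))

variable {ρ c}

omit [Group P] in
theorem lab_eq (i0 : Fin 3) (x : X) (g : P) (h : ∀ i, i ≠ i0 → c i x g = 0) :
    lab ρ c x g = ρ i0 (Multiplicative.ofAdd (c i0 x g)) := by
  unfold lab
  fin_cases i0
  · have h1 := h 1 (by decide)
    have h2 := h 2 (by decide)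
    simp [h1, h2]
  · have h1 := h 0 (by decide)
    have h2 := h 2 (by decide)
    simp [h1, h2]
  · have h1 := h 0 (by decide)
    have h2 := h 1 (by decide)
    simp [h1, h2]

omit [Group P] in
theorem lab_one (x : X) (g : P) (h : ∀ i, c i x g = 0) : lab ρ c x g = 1 := by
  rw [lab_eq 0 x g (fun i _ => h i), h 0]
  simp

/-- the vertex `h` lies on the path `l` that starts at `g`. -/
def OnPath (l : List (X × Bool)) (g h : P) : Prop :=
  ∃ u, u <:+ l ∧ q (FreeGroup.mk u) * g = h

variable {q}

theorem mk_cons_true (x : X) (l : List (X × Bool)) :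
    FreeGroup.mk ((x, true) :: l) = FreeGroup.of x * FreeGroup.mk l := by
  rw [FreeGroup.of, FreeGroup.mul_mk]; rfl

theorem mk_cons_false (x : X) (l : List (X × Bool)) :
    FreeGroup.mk ((x, false) :: l) = (FreeGroup.of x)⁻¹ * FreeGroup.mk l := by
  rw [FreeGroup.of, FreeGroup.inv_mk, FreeGroup.mul_mk]; rfl

theorem act_path (g : P) (i0 : Fin 3) (w : List (X × Bool))
    (hi : ∀ i, i ≠ i0 → ∀ h, OnPath q w g h → ∀ x, c i x h = 0) (ω : Ω) :
    (act q (lab ρ c) (FreeGroup.mk w) (g, ω)).2 =
      ρ i0 (Multiplicative.ofAdd (tot q (c i0) (FreeGroup.mk w) g)) ω := by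
  induction w with
  | nil =>
    have h1 : FreeGroup.mk ([] : List (X × Bool)) = 1 := rfl
    rw [h1, map_one, tot_one]
    simp
  | cons a w ih =>
    have hi' : ∀ i, i ≠ i0 → ∀ h, OnPath q w g h → ∀ x, c i x h = 0 := by
      rintro i hne h ⟨u, hu, huq⟩
      exact hi i hne h ⟨u, hu.trans (List.suffix_cons a w), huq⟩
    have ih' := ih hi'
    obtain ⟨x, b⟩ := a
    cases b with
    | true =>
      rw [mk_cons_true, act_mul_snd, ih', tot_mul, act_of, tot_of]
      have hon : OnPath q ((x, true) :: w) g (q (FreeGroup.mk w) * g) :=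
        ⟨w, List.suffix_cons _ _, rfl⟩
      rw [lab_eq i0 x _ (fun i hne => hi i hne _ hon x)]
      simp only
      rw [← Perm.mul_apply, ← map_mul, ← ofAdd_add, add_comm]
    | false =>
      have hon : OnPath q ((x, false) :: w) g
          ((q (FreeGroup.of x))⁻¹ * (q (FreeGroup.mk w) * g)) :=
        ⟨(x, false) :: w, List.suffix_refl _, by rw [mk_cons_false, map_mul, map_inv, mul_assoc]⟩
      rw [mk_cons_false, act_mul_snd, ih', tot_mul, act_of_inv, tot_inv, tot_of, map_inv]
      rw [lab_eq i0 x _ (fun i hne => hi i hne _ hon x)]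
      simp only
      rw [← Perm.inv_def, ← map_inv, ← Perm.mul_apply, ← map_mul, ← ofAdd_neg, ← ofAdd_add,
        add_comm]

/-- a word with vanishing totals that meets the supports of at most one of the three weights acts
trivially. -/
theorem act_eq_one [DecidableEq X] {r : FreeGroup X} (hr : ∀ i, r ∈ Zt q (c i))
    (hfar : ∀ g, ∃ i0, ∀ i, i ≠ i0 → ∀ h, OnPath q r.toWord g h → ∀ x, c i x h = 0) :
    act q (lab ρ c) r = 1 := by
  ext a
  · obtain ⟨g, ω⟩ := a
    rw [act_fst, (hr 0).1]; simp
  · obtain ⟨g, ω⟩ := a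
    obtain ⟨i0, hi0⟩ := hfar g
    have h := act_path (ρ := ρ) (c := c) g i0 r.toWord hi0 ω
    rw [FreeGroup.mk_toWord, (hr i0).2 g] at h
    rw [h]
    simp

end path

end Pool.H50.GS
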