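import Pool.Agent.Helper96.GS.Core
import Pool.Agent.H50GS.Tot

/-!
# Largeness from three far apart translates of a weight with vanishing totals
-/

set_option autoImplicit false

namespace Pool.H50.GS

open Equiv Pool.H96.GS

section core

variable {X P : Type*} [CommGroup P] {l : ℕ}

omit [CommGroup P] in
theorem Eqv_lab {c : Fin 3 → X → P → ZMod l} (x : X) (g : P) :
    Eqv (lab (rho l) c x g) := by
  unfold lab
  have h := fun i => Eqv_rho (p := l) i (Multiplicative.ofAdd (c i x g))
  exact ((h 0).comp (h 1)).comp (h 2)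

/-- totals of translated weights -/
theorem tot_translate {A : Type*} [AddCommGroup A] {q : FreeGroup X →* P} {c : X → P → A} (d : P)
    (w : FreeGroup X) (g : P) :
    tot q (fun x h => c x (d⁻¹ * h)) w g = tot q c w (d⁻¹ * g) := by
  induction w using FreeGroup.induction_on generalizing g with
  | C1 => rw [tot_one, tot_one]
  | of x => rw [tot_of, tot_of]
  | inv_of x _ => rw [tot_inv, tot_inv, tot_of, tot_of, mul_left_comm]
  | mul x y hx hy => rw [tot_mul, tot_mul, hx, hy, mul_left_comm]

/-- `q : F → P` onto a finite abelian group, `c` a weight with values in `ZMod l`, `y` a letter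
without weight whose image generates `P`, three translations such that every path of a relator
meets at most one of the translated supports; the relators are trivial in `P` and have vanishing
totals; some edge has weight one. -/
theorem core50 [Finite P] [Fact l.Prime] [DecidableEq X] {q : FreeGroup X →* P}
    (y : X) (hy : ∀ g : P, ∃ s : ℤ, q (FreeGroup.of y) ^ s = g)
    (c : X → P → ZMod l) (hcy : ∀ g, c y g = 0) (d : Fin 3 → P)
    (x0 : X) (g0 : P) (hx0 : c x0 g0 = 1)
    (hsupp : ∀ i i', i ≠ i' → ∀ x g, c x ((d i)⁻¹ * g) ≠ 0 → ∀ x', c x' ((d i')⁻¹ * g) = 0)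
    {R : Set (FreeGroup X)} (hR : ∀ r ∈ R, r ∈ Zt q c)
    (hfar : ∀ r ∈ R, ∀ g, ∃ i0, ∀ i, i ≠ i0 → ∀ h, OnPath q r.toWord g h →
      ∀ x, c x ((d i)⁻¹ * h) = 0) :
    Large (FreeGroup X ⧸ Subgroup.normalClosure R) := by
  let c3 : Fin 3 → X → P → ZMod l := fun i x h => c x ((d i)⁻¹ * h)
  let T := lab (rho l) c3
  have hact : ∀ r ∈ R, act q T r = 1 := by
    intro r hr
    refine act_eq_one (fun i => ⟨(hR r hr).1, fun g => ?_⟩) (hfar r hr)
    show tot q (fun x h => c x ((d i)⁻¹ * h)) r g = 0
    rw [tot_translate]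
    exact (hR r hr).2 _
  have hker : Subgroup.normalClosure R ≤ (act q T).ker :=
    Subgroup.normalClosure_le_normal fun r hr => hact r hr
  let A0 : FreeGroup X ⧸ Subgroup.normalClosure R →* Perm (P × Om l) :=
    QuotientGroup.lift _ (act q T) hker
  let E : P × Om l ≃ (P × ZMod l) × FreeGroup (Fin 2) := (Equiv.prodAssoc _ _ _).symm
  let A1 : FreeGroup X ⧸ Subgroup.normalClosure R →* Perm ((P × ZMod l) × FreeGroup (Fin 2)) :=
    E.permCongrHom.toMonoidHom.comp A0
  have hA1 : ∀ (w : FreeGroup X) b u, A1 (QuotientGroup.mk w) (b, u) =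
      E (act q T w (b.1, (b.2, u))) := fun w b u => rfl
  have hEqv : ∀ (w : FreeGroup X) (g : P), Eqv (fun ω => (act q T w (g, ω)).2) := fun w g =>
    act_snd_ind (q := q) (T := T) Eqv Eqv.id (fun x g => Eqv_lab x g)
      (fun x g => (Eqv_lab x g).symm) (fun u v hu hv => hu.comp hv) w g
  have : NeZero l := ⟨(Fact.out : l.Prime).ne_zero⟩
  -- powers of `y` act trivially in the fibre
  have hTy : ∀ g, T y g = 1 := fun g => lab_one y g (fun i => hcy _)
  have hypow : ∀ (s : ℤ) (g : P) (ω : Om l),
      act q T (FreeGroup.of y ^ s) (g, ω) = (q (FreeGroup.of y) ^ s * g, ω) := by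
    intro s
    induction s using Int.induction_on with
    | zero => intro g ω; simp
    | succ n ih =>
      intro g ω
      rw [zpow_add_one, map_mul, Perm.mul_apply, act_of, hTy, Perm.one_apply, ih, zpow_add_one,
        mul_assoc]
    | pred n ih =>
      intro g ω
      rw [zpow_sub_one, map_mul, Perm.mul_apply, act_of_inv, hTy, ih, zpow_sub_one, mul_assoc]
      rfl
  have hloop : ∀ i : Fin 3, ∃ w, ∀ ω, act q T w (1, ω) =
      (1, rho l i (Multiplicative.ofAdd 1) ω) := by
    intro i
    obtain ⟨s, hs⟩ := hy (d i * g0)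
    obtain ⟨s', hs'⟩ := hy (q (FreeGroup.of x0) * (d i * g0))
    refine ⟨FreeGroup.of y ^ (-s') * (FreeGroup.of x0 * FreeGroup.of y ^ s), fun ω => ?_⟩
    have h1 : c3 i x0 (d i * g0) = 1 := by
      show c x0 ((d i)⁻¹ * (d i * g0)) = 1
      rw [inv_mul_cancel_left]
      exact hx0
    have h2 : T x0 (d i * g0) = rho l i (Multiplicative.ofAdd 1) := by
      have h3 := lab_eq (ρ := rho l) (c := c3) i x0 (d i * g0) (fun i' hne => by
        refine hsupp i i' (Ne.symm hne) x0 (d i * g0) ?_ x0
        rw [inv_mul_cancel_left, hx0]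
        exact one_ne_zero)
      rw [h1] at h3
      exact h3
    have e1 : act q T (FreeGroup.of y ^ s) (1, ω) = (d i * g0, ω) := by
      rw [hypow, mul_one, hs]
    rw [map_mul, Perm.mul_apply, map_mul, Perm.mul_apply, e1, act_of, h2, hypow,
      zpow_neg, hs', inv_mul_cancel]
  refine large_of_action A1 ?_ (1, 0) ?_
  · intro g b u v
    induction g using QuotientGroup.induction_on with
    | H w =>
      rw [hA1, hA1]
      have h1 := hEqv w b.1 b.2 u v
      have h2 : act q T w (b.1, (b.2, u * v)) =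
          (q w * b.1, (act q T w (b.1, (b.2, u * v))).2) :=
        Prod.ext (act_fst _ _) rfl
      have h3 : act q T w (b.1, (b.2, u)) =
          (q w * b.1, (act q T w (b.1, (b.2, u))).2) :=
        Prod.ext (act_fst _ _) rfl
      rw [h2, h3]
      simp only at h1
      rw [h1]
      rfl
  · intro i
    obtain ⟨k0, hk0⟩ := hloop 0
    obtain ⟨k1, hk1⟩ := hloop i.succ
    refine ⟨QuotientGroup.mk (k1 * k0⁻¹), ?_⟩
    rw [hA1]
    have h0 : act q T k0⁻¹ (1, ((0 : ZMod l), (1 : FreeGroup (Fin 2)))) =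
        (1, (-1, 1)) := by
      rw [map_inv, Perm.inv_def, Equiv.symm_apply_eq, hk0, rho_neg_one]
      simp [u3]
    show E (act q T (k1 * k0⁻¹) (1, (0, 1))) = _
    rw [map_mul, Perm.mul_apply, h0, hk1, rho_neg_one, mul_one]
    fin_cases i <;> rfl

end core

end Pool.H50.GS
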