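import Pool.Agent.H50GS.Core50

/-!
# The linear algebra: a homomorphism to `ℤ` and a weight on a window
-/

set_option autoImplicit false

namespace Pool.H50.GS

open Equiv Pool.H96.GS Module

section hom

variable {X : Type*} [DecidableEq X]

/-- a homomorphism to the integers that kills the letters outside `T` and fewer than `|T|` given
words, and is not zero on some letter of `T`. -/
theorem exists_theta (T : Finset X) (Rb : Finset (FreeGroup X)) (h : Rb.card < T.card) :
    ∃ θ : FreeGroup X →* Multiplicative ℤ, (∀ x, x ∉ T → θ (FreeGroup.of x) = 1) ∧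
      (∀ r ∈ Rb, θ r = 1) ∧ ∃ y ∈ T, Multiplicative.toAdd (θ (FreeGroup.of y)) ≠ 0 := by
  let V := {x // x ∈ T} → ℚ
  let E : FreeGroup X →* Multiplicative (Module.Dual ℚ V) :=
    FreeGroup.lift fun x => Multiplicative.ofAdd
      (if h : x ∈ T then (LinearMap.proj (⟨x, h⟩ : {x // x ∈ T}) : V →ₗ[ℚ] ℚ) else 0)
  let Λ : V →ₗ[ℚ] ({r // r ∈ Rb} → ℚ) :=
    LinearMap.pi fun r => (Multiplicative.toAdd (E r.1) : Module.Dual ℚ V)
  have hfin : finrank ℚ ({r // r ∈ Rb} → ℚ) < finrank ℚ V := by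
    rw [Module.finrank_fintype_fun_eq_card, Module.finrank_fintype_fun_eq_card]
    simpa using h
  have hker : LinearMap.ker Λ ≠ ⊥ := LinearMap.ker_ne_bot_of_finrank_lt hfin
  obtain ⟨a, haker, ha0⟩ := (Submodule.ne_bot_iff _).mp hker
  have har : ∀ r ∈ Rb, (Multiplicative.toAdd (E r) : Module.Dual ℚ V) a = 0 := by
    intro r hr
    exact congrFun (LinearMap.mem_ker.mp haker) ⟨r, hr⟩
  let N : ℕ := ∏ x, (a x).den
  have hN : N ≠ 0 := Finset.prod_ne_zero_iff.mpr fun x _ => (a x).den_nz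
  have hb : ∀ x, ∃ b : ℤ, (b : ℚ) = N * a x := by
    intro x
    obtain ⟨k, hk⟩ : (a x).den ∣ N := Finset.dvd_prod_of_mem _ (Finset.mem_univ x)
    refine ⟨k * (a x).num, ?_⟩
    rw [hk]
    push_cast
    have h1 := Rat.mul_den_eq_num (a x)
    linear_combination (-(k : ℚ)) * h1
  choose b hb using hb
  let θ : FreeGroup X →* Multiplicative ℤ :=
    FreeGroup.lift fun x => Multiplicative.ofAdd (if h : x ∈ T then b ⟨x, h⟩ else 0)
  have hθ : ∀ w, ((Multiplicative.toAdd (θ w) : ℤ) : ℚ) =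
      N * (Multiplicative.toAdd (E w) : Module.Dual ℚ V) a := by
    intro w
    induction w using FreeGroup.induction_on with
    | C1 => simp
    | of x =>
      simp only [θ, E, FreeGroup.lift_apply_of, toAdd_ofAdd]
      split_ifs with hx
      · rw [hb]; rfl
      · simp
    | inv_of x ih =>
      rw [MonoidHom.map_inv θ, MonoidHom.map_inv E, toAdd_inv, toAdd_inv]
      push_cast
      rw [ih, LinearMap.neg_apply, mul_neg]
    | mul x y hx hy =>
      rw [MonoidHom.map_mul θ, MonoidHom.map_mul E, toAdd_mul, toAdd_mul]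
      push_cast
      rw [hx, hy, LinearMap.add_apply]
      ring
  refine ⟨θ, ?_, ?_, ?_⟩
  · intro x hx
    simp [θ, hx]
  · intro r hr
    have h1 := hθ r
    rw [har r hr, mul_zero] at h1
    have h2 : Multiplicative.toAdd (θ r) = 0 := by exact_mod_cast h1
    exact Multiplicative.toAdd.injective (h2.trans toAdd_one.symm)
  · have h1 : ∃ x, a x ≠ 0 := by
      by_contra hcon
      push Not at hcon
      exact ha0 (funext hcon)
    obtain ⟨y, hy⟩ := h1
    refine ⟨y.1, y.2, ?_⟩
    have h2 : Multiplicative.toAdd (θ (FreeGroup.of y.1)) = b y := by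
      simp [θ, y.2]
    rw [h2]
    intro h3
    have h4 := hb y
    rw [h3] at h4
    have h5 : (N : ℚ) * a y ≠ 0 := mul_ne_zero (by exact_mod_cast hN) hy
    exact h5 (by rw [← h4]; simp)

end hom

section zero

variable {X P A : Type*} [Group P] [AddCommGroup A] {q : FreeGroup X →* P} {c : X → P → A}

/-- no weight on the vertices of the path: the total is zero. -/
theorem tot_eq_zero (g : P) (w : List (X × Bool))
    (hi : ∀ h, OnPath q w g h → ∀ x, c x h = 0) : tot q c (FreeGroup.mk w) g = 0 := by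
  induction w with
  | nil =>
    have h1 : FreeGroup.mk ([] : List (X × Bool)) = 1 := rfl
    rw [h1, tot_one]
  | cons a w ih =>
    have ih' := ih (by
      rintro h ⟨u, hu, huq⟩
      exact hi h ⟨u, hu.trans (List.suffix_cons a w), huq⟩)
    obtain ⟨x, b⟩ := a
    cases b with
    | true =>
      have hon : OnPath q ((x, true) :: w) g (q (FreeGroup.mk w) * g) :=
        ⟨w, List.suffix_cons _ _, rfl⟩
      rw [mk_cons_true, tot_mul, ih', tot_of, hi _ hon, add_zero]
    | false =>
      have hon : OnPath q ((x, false) :: w) g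
          ((q (FreeGroup.of x))⁻¹ * (q (FreeGroup.mk w) * g)) :=
        ⟨(x, false) :: w, List.suffix_refl _, by rw [mk_cons_false, map_mul, map_inv, mul_assoc]⟩
      rw [mk_cons_false, tot_mul, ih', tot_inv, tot_of, map_inv, hi _ hon, neg_zero, add_zero]

/-- words in which some letters are removed -/
theorem tot_eq_of_hom {f : FreeGroup X →* FreeGroup X}
    (hf : ∀ x, f (FreeGroup.of x) = FreeGroup.of x ∨
      (f (FreeGroup.of x) = 1 ∧ q (FreeGroup.of x) = 1 ∧ ∀ g, c x g = 0)) (w : FreeGroup X) :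
    q (f w) = q w ∧ ∀ g, tot q c (f w) g = tot q c w g := by
  induction w using FreeGroup.induction_on with
  | C1 => simp
  | of x =>
    rcases hf x with h | ⟨h1, h2, h3⟩
    · rw [h]; exact ⟨rfl, fun g => rfl⟩
    · rw [h1]
      refine ⟨by rw [map_one, h2], fun g => ?_⟩
      rw [tot_one, tot_of, h3]
  | inv_of x ih =>
    refine ⟨by rw [map_inv, map_inv, map_inv, ih.1], fun g => ?_⟩
    rw [map_inv, tot_inv, tot_inv, ih.2, map_inv, map_inv, ih.1]
  | mul x y hx hy =>
    refine ⟨by rw [map_mul, map_mul, map_mul, hx.1, hy.1], fun g => ?_⟩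
    rw [map_mul, tot_mul, tot_mul, hx.2, hy.2, hy.1]

end zero

section weight

/-- fewer equations than unknowns: a weight on the edges `(x, g)`, `x ∈ T`, `g ∈ W`, whose totals
vanish for the words of `Rb` and the starts in `B`, with a value one. -/
theorem exists_weight {X P : Type*} [DecidableEq X] [DecidableEq P] [Group P] {l : ℕ}
    [Fact l.Prime] (q : FreeGroup X →* P) (T : Finset X) (W B : Finset P)
    (Rb : Finset (FreeGroup X)) (h : Rb.card * B.card < T.card * W.card) :
    ∃ c : X → P → ZMod l, (∀ x g, ¬ (x ∈ T ∧ g ∈ W) → c x g = 0) ∧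
      (∃ x g, c x g = 1) ∧ ∀ r ∈ Rb, ∀ g ∈ B, tot q c r g = 0 := by
  let I := {x // x ∈ T} × {g // g ∈ W}
  let V := I → ZMod l
  let cU : X → P → Module.Dual (ZMod l) V := fun x g =>
    if h : x ∈ T ∧ g ∈ W then
      (LinearMap.proj ((⟨x, h.1⟩, ⟨g, h.2⟩) : I) : V →ₗ[ZMod l] ZMod l) else 0
  let Λ : V →ₗ[ZMod l] (({r // r ∈ Rb} × {g // g ∈ B}) → ZMod l) :=
    LinearMap.pi fun j => (tot q cU j.1.1 j.2.1 : Module.Dual (ZMod l) V)
  have hfin : finrank (ZMod l) (({r // r ∈ Rb} × {g // g ∈ B}) → ZMod l) <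
      finrank (ZMod l) V := by
    rw [Module.finrank_fintype_fun_eq_card, Module.finrank_fintype_fun_eq_card]
    simpa [I] using h
  obtain ⟨a, haker, ha0⟩ := (Submodule.ne_bot_iff _).mp (LinearMap.ker_ne_bot_of_finrank_lt hfin)
  have h1 : ∃ i, a i ≠ 0 := by
    by_contra hcon
    push Not at hcon
    exact ha0 (funext hcon)
  obtain ⟨i, hi⟩ := h1
  let a1 : V := (a i)⁻¹ • a
  have ha1 : a1 ∈ LinearMap.ker Λ := Submodule.smul_mem _ _ haker
  refine ⟨fun x g => cU x g a1, ?_, ⟨i.1.1, i.2.1, ?_⟩, ?_⟩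
  · intro x g hn
    simp only [cU, dif_neg hn, LinearMap.zero_apply]
  · have hm : (i.1.1 ∈ T ∧ i.2.1 ∈ W) := ⟨i.1.2, i.2.2⟩
    simp only [cU, dif_pos hm]
    show (a i)⁻¹ • a i = 1
    rw [smul_eq_mul, inv_mul_cancel₀ hi]
  · intro r hr g hg
    have h2 := tot_map (q := q) (c := cU)
      (f := ((LinearMap.applyₗ a1 : Module.Dual (ZMod l) V →ₗ[ZMod l] ZMod l)).toAddMonoidHom) r g
    have h3 : (tot q cU r g) a1 = 0 := congrFun (LinearMap.mem_ker.mp ha1) (⟨r, hr⟩, ⟨g, hg⟩)
    exact h2.trans h3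

end weight

end Pool.H50.GS
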