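import Pool.Agent.Helper96.GS.Fp
import Pool.Agent.H50GS.BP

/-!
# A random set of letters
-/

set_option autoImplicit false

namespace Pool.H50.GS

open Equiv Pool.H96.GS Module

section prob

variable {X : Type*} [Fintype X] [DecidableEq X]

/-- the probability of the set `T` -/
noncomputable def wt (τ : X → ℝ) (T : Finset X) : ℝ :=
  ∏ j, if j ∈ T then τ j else 1 - τ j

theorem wt_nonneg {τ : X → ℝ} (h : ∀ j, 0 ≤ τ j ∧ τ j ≤ 1) (T : Finset X) : 0 ≤ wt τ T := by
  refine Finset.prod_nonneg fun j _ => ?_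
  split_ifs
  · exact (h j).1
  · linarith [(h j).2]

/-- the probability that `T` contains `S` -/
theorem sum_wt (τ : X → ℝ) (S : Finset X) :
    ∑ T : Finset X, wt τ T * (if S ⊆ T then 1 else 0) = ∏ j ∈ S, τ j := by
  have h1 : ∀ T : Finset X, wt τ T * (if S ⊆ T then 1 else 0) =
      (∏ j ∈ T, τ j) * ∏ j ∈ Finset.univ \ T, (if j ∈ S then 0 else 1 - τ j) := by
    intro T
    have h2 : wt τ T = (∏ j ∈ T, τ j) * ∏ j ∈ Finset.univ \ T, (1 - τ j) := by
      unfold wt
      rw [← Finset.prod_sdiff (Finset.subset_univ T), mul_comm]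
      congr 1
      · exact Finset.prod_congr rfl fun j hj => by rw [if_pos hj]
      · exact Finset.prod_congr rfl fun j hj => by rw [if_neg (Finset.mem_sdiff.mp hj).2]
    by_cases hS : S ⊆ T
    · rw [if_pos hS, mul_one, h2]
      congr 1
      refine Finset.prod_congr rfl fun j hj => ?_
      rw [if_neg fun h => (Finset.mem_sdiff.mp hj).2 (hS h)]
    · rw [if_neg hS, mul_zero]
      obtain ⟨j, hj, hjT⟩ := Finset.not_subset.mp hS
      rw [Finset.prod_eq_zero (i := j) (s := Finset.univ \ T), mul_zero]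
      · exact Finset.mem_sdiff.mpr ⟨Finset.mem_univ _, hjT⟩
      · rw [if_pos hj]
  rw [Finset.sum_congr rfl fun T _ => h1 T]
  have h3 := Finset.prod_add τ (fun j => if j ∈ S then (0 : ℝ) else 1 - τ j) Finset.univ
  rw [Finset.powerset_univ] at h3
  rw [← h3]
  rw [← Finset.prod_sdiff (Finset.subset_univ S)]
  have h4 : ∏ x ∈ Finset.univ \ S, (τ x + if x ∈ S then 0 else 1 - τ x) = 1 := by
    refine Finset.prod_eq_one fun x hx => ?_
    rw [if_neg (Finset.mem_sdiff.mp hx).2]
    ring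
  rw [h4, one_mul]
  exact Finset.prod_congr rfl fun x hx => by rw [if_pos hx, add_zero]

/-- some set of letters contains at least two letters more than given sets. -/
theorem exists_subset {ι : Type*} (τ : X → ℝ) (h : ∀ j, 0 ≤ τ j ∧ τ j ≤ 1) (Q : Finset ι)
    (S : ι → Finset X) (hlt : 1 - ∑ j, τ j + ∑ r ∈ Q, ∏ j ∈ S r, τ j < 0) :
    ∃ T : Finset X, (Q.filter fun r => S r ⊆ T).card + 2 ≤ T.card := by
  classical
  by_contra hcon
  push Not at hcon
  have h1 : ∀ T : Finset X, (T.card : ℝ) ≤ 1 + ((Q.filter fun r => S r ⊆ T).card : ℝ) := by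
    intro T
    have := hcon T
    have h2 : T.card ≤ 1 + (Q.filter fun r => S r ⊆ T).card := by omega
    exact_mod_cast h2
  have hone : ∑ T : Finset X, wt τ T = 1 := by
    have := sum_wt τ ∅
    simpa using this
  have hcard : ∑ T : Finset X, wt τ T * (T.card : ℝ) = ∑ j, τ j := by
    have h2 : ∀ T : Finset X, (T.card : ℝ) = ∑ j : X, if {j} ⊆ T then (1 : ℝ) else 0 := by
      intro T
      rw [Finset.sum_ite]
      simp
    rw [Finset.sum_congr rfl fun T _ => by rw [h2 T, Finset.mul_sum], Finset.sum_comm]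
    refine Finset.sum_congr rfl fun j _ => ?_
    have := sum_wt τ {j}
    simpa using this
  have hQ : ∑ T : Finset X, wt τ T * ((Q.filter fun r => S r ⊆ T).card : ℝ) =
      ∑ r ∈ Q, ∏ j ∈ S r, τ j := by
    have h2 : ∀ T : Finset X, ((Q.filter fun r => S r ⊆ T).card : ℝ) =
        ∑ r ∈ Q, if S r ⊆ T then (1 : ℝ) else 0 := by
      intro T
      rw [Finset.sum_ite]
      simp
    rw [Finset.sum_congr rfl fun T _ => by rw [h2 T, Finset.mul_sum], Finset.sum_comm]
    exact Finset.sum_congr rfl fun r _ => sum_wt τ (S r)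
  have h3 : ∑ T : Finset X, wt τ T * (T.card : ℝ) ≤
      ∑ T : Finset X, wt τ T * (1 + ((Q.filter fun r => S r ⊆ T).card : ℝ)) :=
    Finset.sum_le_sum fun T _ => mul_le_mul_of_nonneg_left (h1 T) (wt_nonneg h T)
  simp only [mul_add, mul_one, Finset.sum_add_distrib] at h3
  rw [hcard, hone, hQ] at h3
  linarith

end prob

/-- the letters whose removal puts the word into `[F', F'] (F')^l` -/
noncomputable def killSet {d : ℕ} (l : ℕ) (r : FreeGroup (Fin d)) : Finset (Fin d) := by
  classical exact Finset.univ.filter fun j => ret (Finset.univ.erase j) r ∈ Zl (Fin d) l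

theorem mem_killSet {d : ℕ} {l : ℕ} {r : FreeGroup (Fin d)} {j : Fin d} :
    j ∈ killSet l r ↔ ret (Finset.univ.erase j) r ∈ Zl (Fin d) l := by
  classical
  unfold killSet
  simp

theorem ret_ret {X : Type*} [Fintype X] [DecidableEq X] (T : Finset X) {j : X} (hj : j ∉ T)
    (r : FreeGroup X) : ret T (ret (Finset.univ.erase j) r) = ret T r := by
  have : (ret T).comp (ret (Finset.univ.erase j)) = ret T := by
    ext x
    rw [MonoidHom.comp_apply, ret_of, ret_of]
    by_cases hx : x = j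
    · subst hx
      rw [if_neg (Finset.notMem_erase x _), map_one, if_neg hj]
    · rw [if_pos (Finset.mem_erase.mpr ⟨hx, Finset.mem_univ _⟩), ret_of]
  exact DFunLike.congr_fun this r

/-- finitely many relators -/
theorem main_fin {l d : ℕ} (hl : l.Prime) (R0 : Set (FreeGroup (Fin d))) (hfin : R0.Finite)
    (Q : Finset (FreeGroup (Fin d))) (hQ : ∀ r ∈ R0, r ∈ Zl (Fin d) l ∨ r ∈ Q)
    (τ : Fin d → ℝ) (hτ : ∀ j, 0 ≤ τ j ∧ τ j ≤ 1)
    (hlt : 1 - ∑ j, τ j + ∑ r ∈ Q, ∏ j ∈ killSet l r, τ j < 0) :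
    Large (FreeGroup (Fin d) ⧸ Subgroup.normalClosure R0) := by
  obtain ⟨T, hT⟩ := exists_subset τ hτ Q (fun r => killSet l r) hlt
  refine large_of_subset hl R0 hfin T (Q.filter fun r => killSet l r ⊆ T) hT fun r hr => ?_
  rcases hQ r hr with hz | hz
  · exact Or.inr (Zl_map_le l _ hz)
  · by_cases hk : killSet l r ⊆ T
    · left
      exact Finset.mem_filter.mpr ⟨hz, hk⟩
    · right
      obtain ⟨j, hj, hjT⟩ := Finset.not_subset.mp hk
      rw [← ret_ret T hjT r]
      exact Zl_map_le l _ (mem_killSet.mp hj)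

/-- the relators outside `[F', F'] (F')^l` -/
def outside {d : ℕ} (l : ℕ) (R : Set (FreeGroup (Fin d))) : Set (FreeGroup (Fin d)) :=
  {r | r ∈ R ∧ r ∉ Zl (Fin d) l}

theorem main {G : Type} [Group G] (hG : FP G) {l d : ℕ} (hl : l.Prime)
    (φ : FreeGroup (Fin d) →* G) (hφ : Function.Surjective φ) (R : Set (FreeGroup (Fin d)))
    (hR : φ.ker = Subgroup.normalClosure R) (τ : Fin d → ℝ) (hτ : ∀ j, 0 ≤ τ j ∧ τ j ≤ 1)
    (hs : Summable fun r : outside l R => ∏ j ∈ killSet l r.1, τ j)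
    (hlt : 1 - ∑ j, τ j + ∑' r : outside l R, ∏ j ∈ killSet l r.1, τ j < 0) : Large G := by
  refine large_of_fp hG φ hφ R hR fun R0 hR0 hfin => ?_
  have hfin' : (outside l R0).Finite := hfin.subset fun r hr => hr.1
  have hsub : outside l R0 ⊆ outside l R := fun r hr => ⟨hR0 hr.1, hr.2⟩
  have h0 : ∀ r : FreeGroup (Fin d), 0 ≤ ∏ j ∈ killSet l r, τ j := fun r =>
    Finset.prod_nonneg fun j _ => (hτ j).1
  have hsum : ∑ r ∈ hfin'.toFinset, ∏ j ∈ killSet l r, τ j ≤
      ∑' r : outside l R, ∏ j ∈ killSet l r.1, τ j := by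
    have h1 := (summable_subtype_iff_indicator (s := outside l R)
      (f := fun r => ∏ j ∈ killSet l r, τ j)).mp hs
    have h2 := tsum_subtype (outside l R) (fun r => ∏ j ∈ killSet l r, τ j)
    rw [h2]
    refine le_trans (le_of_eq ?_) (h1.sum_le_tsum hfin'.toFinset fun r _ => ?_)
    · refine Finset.sum_congr rfl fun r hr => ?_
      rw [Set.indicator_of_mem]
      exact hsub ((Set.Finite.mem_toFinset _).mp hr)
    · exact Set.indicator_nonneg (fun r _ => h0 r) r
  refine main_fin hl R0 hfin hfin'.toFinset (fun r hr => ?_) τ hτ (by linarith)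
  by_cases hz : r ∈ Zl (Fin d) l
  · exact Or.inl hz
  · exact Or.inr ((Set.Finite.mem_toFinset _).mpr ⟨hr, hz⟩)

/-- the Golod-Shafarevich case -/
theorem mainGS {G : Type} [Group G] (hG : FP G) {l d p : ℕ} (hl : l.Prime)
    (φ : FreeGroup (Fin d) →* G) (hφ : Function.Surjective φ) (R : Set (FreeGroup (Fin d)))
    (hR : φ.ker = Subgroup.normalClosure R) (hGS : GSIneq p d R)
    (hdeg : ∀ r ∈ R, r ∈ Zl (Fin d) l ∨ deg p r ≤ (killSet l r).card) : Large G := by
  obtain ⟨t, ht0, ht1, hs, hlt⟩ := hGS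
  let ι : outside l R → R := fun r => ⟨r.1, r.2.1⟩
  have hι : Function.Injective ι := by
    intro a b hab
    exact Subtype.ext (congrArg (fun x : R => x.1) hab)
  have hle : ∀ r : outside l R, ∏ _j ∈ killSet l r.1, t ≤ t ^ deg p (ι r).1 := by
    intro r
    rw [Finset.prod_const]
    rcases hdeg r.1 r.2.1 with h | h
    · exact absurd h r.2.2
    · exact pow_le_pow_of_le_one ht0.le ht1.le h
  have hs1 : Summable fun r : outside l R => t ^ deg p (ι r).1 := hs.comp_injective hι
  have hs2 : Summable fun r : outside l R => ∏ _j ∈ killSet l r.1, t :=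
    Summable.of_nonneg_of_le (fun r => Finset.prod_nonneg fun j _ => ht0.le) hle hs1
  refine main hG hl φ hφ R hR (fun _ => t) (fun _ => ⟨ht0.le, ht1.le⟩) hs2 ?_
  have h1 : ∑' r : outside l R, ∏ _j ∈ killSet l r.1, t ≤
      ∑' r : outside l R, t ^ deg p (ι r).1 :=
    hs2.tsum_le_tsum hle hs1
  have h2 : ∑' r : outside l R, t ^ deg p (ι r).1 ≤ ∑' r : R, t ^ deg p r.1 :=
    Summable.tsum_le_tsum_of_inj ι hι (fun r _ => pow_nonneg ht0.le _) (fun r => le_rfl) hs1 hs
  rw [Finset.sum_const, Finset.card_univ, Fintype.card_fin, nsmul_eq_mul]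
  linarith

end Pool.H50.GS
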